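import Pool.Agent.K3h26.R5.Stm

/-!
# Dimension five (MP_c4753b_co): the bound for the lattice tilings
-/

set_option autoImplicit false

open MeasureTheory Filter Topology Set
open scoped ENNReal

namespace Pool.Agent.K3h26.R5

open H947TP

theorem my_nonneg (v : Fin 5 → ℝ) : 0 ≤ my v := (abs_nonneg _).trans (le_max_left _ _)

theorem mu_nonneg {v : Fin 5 → ℝ} (h : my v < 1) : 0 ≤ mu v := by
  unfold my at h
  rw [max_lt_iff] at h
  unfold mu
  exact mul_nonneg (by linarith [h.1]) (by linarith [h.2])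

theorem WW_sep {L : AddSubgroup (Fin 5 → ℝ)} (hL : IsT L) (a b c : ℝ) :
    ∀ v ∈ WW L a b c, ∀ v' ∈ WW L a b c, v ≠ v' → 1 ≤ |v 3 - v' 3| ∨ 1 ≤ |v 4 - v' 4| := by
  rintro v ⟨h1, -, h2, h3, h4⟩ v' ⟨h1', -, h2', h3', h4'⟩ hne
  have h0 : v - v' ≠ 0 := sub_ne_zero.2 hne
  have e0 : (v - v') 0 = 0 := by rw [Pi.sub_apply, h2, h2', sub_self]
  have e1 : (v - v') 1 = 0 := by rw [Pi.sub_apply, h3, h3', sub_self]
  have e2 : (v - v') 2 = 0 := by rw [Pi.sub_apply, h4, h4', sub_self]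
  rcases hL.1 (v - v') (L.sub_mem h1 h1') h0 with h | h | h
  · unfold n1 at h
    rw [e0, e1, e2] at h
    norm_num at h
  · unfold ni at h
    rw [e0, e1, e2] at h
    norm_num at h
  · unfold my at h
    rw [le_max_iff] at h
    exact h

theorem EE_add (L : AddSubgroup (Fin 5 → ℝ)) (a b c : ℝ) (hfin : (WW L a b c).Finite)
    (hone : ∑ᶠ v ∈ WW L a b c, mu v = 1) (lam : ℝ) :
    EE L a b c (rh lam) = (1 - lam) / 2 + lam * EE L a b c my := by
  unfold EE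
  rw [finsum_mem_eq_finite_toFinset_sum _ hfin] at hone ⊢
  rw [finsum_mem_eq_finite_toFinset_sum _ hfin, Finset.mul_sum]
  have : (1 - lam) / 2 = ∑ v ∈ hfin.toFinset, mu v * ((1 - lam) / 2) := by
    rw [← Finset.sum_mul, hone, one_mul]
  rw [this, ← Finset.sum_add_distrib]
  refine Finset.sum_congr rfl fun v _ => ?_
  unfold rh
  ring

theorem EE_my_le (L : AddSubgroup (Fin 5 → ℝ)) (a b c : ℝ) (hfin : (WW L a b c).Finite)
    (hone : ∑ᶠ v ∈ WW L a b c, mu v = 1) : EE L a b c my ≤ 1 := by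
  unfold EE
  rw [finsum_mem_eq_finite_toFinset_sum _ hfin] at hone ⊢
  rw [← hone]
  refine Finset.sum_le_sum fun v hv => ?_
  rw [Set.Finite.mem_toFinset] at hv
  exact mul_le_of_le_one_right (mu_nonneg hv.2.1) hv.2.1.le

theorem ineq (hMASS : S_MASS) (hFP : S_FP) (hHX : S_HX) : S_INEQ := by
  refine ⟨1 / 288000000, 6 - 1 / 16000000000, by norm_num, by norm_num, by norm_num,
    by norm_num, fun L hL => ?_⟩
  have m1 := hMASS L hL 0 0 1
  have m2 := hMASS L hL 1 1 (-1)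
  have m3 := hMASS L hL 0 (-1) 1
  have m4 := hMASS L hL 1 0 (-1)
  have m5 := hMASS L hL 1 0 0
  have m6 := hMASS L hL 0 1 0
  have m7 := hMASS L hL (-1) (-1) 2
  norm_num at m1 m2 m3 m4 m5 m6 m7
  have fp : ∀ a b c : ℝ, (WW L a b c).Finite → ∑ᶠ v ∈ WW L a b c, mu v = 1 →
      EE L a b c sy ≤ 1 / 2 ∧ ((1 - 1 / 16000000) / 2 ≤ EE L a b c sy → ∀ p q : ℝ,
        (p = 1 ∨ p = -1) → (q = 1 ∨ q = -1) →
        ∃ v ∈ WW L a b c, |v 3 - p / 2| ≤ 1 / 1000 ∧ |v 4 - q / 2| ≤ 1 / 1000) := by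
    intro a b c hf h1
    obtain ⟨h2, h3⟩ := hFP (WW L a b c) (1 / 16000000) hf (fun v hv => hv.2.1)
      (WW_sep hL a b c) h1
    refine ⟨h2, fun h4 p q hp hq => ?_⟩
    obtain ⟨v, hv, h5⟩ := h3 (by norm_num) h4 p q hp hq
    refine ⟨v, hv, ?_, ?_⟩
    · refine abs_le_of_sq_le_sq (h := ?_) (by norm_num)
      nlinarith [sq_nonneg (v 4 - q / 2)]
    · refine abs_le_of_sq_le_sq (h := ?_) (by norm_num)
      nlinarith [sq_nonneg (v 3 - p / 2)]
  obtain ⟨f5, g5⟩ := fp 2 0 0 m5.1 m5.2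
  obtain ⟨f6, g6⟩ := fp 0 2 0 m6.1 m6.2
  obtain ⟨f7, g7⟩ := fp 0 0 2 m7.1 m7.2
  unfold SS
  rw [EE_add L _ _ _ m1.1 m1.2, EE_add L _ _ _ m2.1 m2.2, EE_add L _ _ _ m3.1 m3.2,
    EE_add L _ _ _ m4.1 m4.2]
  have l1 := EE_my_le L _ _ _ m1.1 m1.2
  have l2 := EE_my_le L _ _ _ m2.1 m2.2
  have l3 := EE_my_le L _ _ _ m3.1 m3.2
  have l4 := EE_my_le L _ _ _ m4.1 m4.2
  by_cases h5 : (1 - 1 / 16000000) / 2 ≤ EE L 2 0 0 sy
  · by_cases h6 : (1 - 1 / 16000000) / 2 ≤ EE L 0 2 0 sy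
    · by_cases h7 : (1 - 1 / 16000000) / 2 ≤ EE L 0 0 2 sy
      · have hx := hHX L hL (by
          rintro a b c (⟨rfl, rfl, rfl⟩ | ⟨rfl, rfl, rfl⟩ | ⟨rfl, rfl, rfl⟩) p q hp hq
          · exact g5 h5 p q hp hq
          · exact g6 h6 p q hp hq
          · exact g7 h7 p q hp hq)
        have x1 := hx 1 1 1 (by norm_num) (by norm_num) (by norm_num)
        have x2 := hx 1 1 (-1) (by norm_num) (by norm_num) (by norm_num)
        have x3 := hx 1 (-1) 1 (by norm_num) (by norm_num) (by norm_num)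
        have x4 := hx 1 (-1) (-1) (by norm_num) (by norm_num) (by norm_num)
        linarith
      · push Not at h7
        linarith
    · push Not at h6
      linarith
  · push Not at h5
    linarith

end Pool.Agent.K3h26.R5
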