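import Pool.Agent.K3h26.R5.Core
import Pool.Agent.K3h26.R5.Ineq
import Pool.Agent.K3h79.R5.Body
import Pool.Agent.K3h77.R5.V3
import Pool.Agent.K3h64.R5.VOLP
import Pool.Agent.K3h92.R5.OVH
import Pool.Agent.K3h24.R5.OVS
import Pool.Agent.K3h3.R5.L1
import Pool.Agent.K3h55.R5.TO
import Pool.Agent.K3h86.R5.SL
import Pool.Agent.K3h27.R5.Mass
import Pool.Agent.K3h85.R5.HX
import Pool.Agent.K3h60.R5.L24
import Pool.Agent.K3h99.R5.L6

/-!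
# Dimension five (MP_c4753b_co): the main theorem
-/

set_option autoImplicit false

open MeasureTheory Filter Topology Set
open scoped ENNReal

namespace Pool.Agent.K3h26.R5

open H947TP

theorem tt_SL : S_SL := Pool.Agent.K3h86.R5.t_SL Pool.Agent.K3h55.R5.t_TO

theorem tt_MASS : S_MASS := Pool.Agent.K3h27.R5.t_MASS tt_SL

theorem tt_L1 : S_L1 := Pool.Agent.K3h3.R5.t_L1 Pool.Agent.K3h64.R5.t_VOLP

theorem tt_INEQ : S_INEQ :=
  ineq tt_MASS Pool.Agent.K3h85.R5.t_FP (Pool.Agent.K3h85.R5.t_HX tt_SL tt_MASS)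

theorem main5_of (hTAU : S_TAU) : ∃ K : Set (Fin 5 → ℝ), Convex ℝ K ∧ IsCompact K ∧
      (interior K).Nonempty ∧ (∀ x ∈ K, -x ∈ K) ∧ deltaL K < deltaT K :=
  core5 Pool.Agent.K3h79.R5.t_BODY Pool.Agent.K3h77.R5.t_V3 hTAU tt_L1
    Pool.Agent.K3h60.R5.t_L2
    (Pool.Agent.K3h60.R5.t_L4 tt_L1 Pool.Agent.K3h64.R5.t_VOLP)
    (Pool.Agent.K3h99.R5.t_L6 Pool.Agent.K3h92.R5.t_OVH Pool.Agent.K3h24.R5.t_OVS tt_SL) tt_INEQ

end Pool.Agent.K3h26.R5
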