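import Pool.Agent.H947R2.TP.All

/-!
# Dimension five (MP_c4753b_co): definitions and statements of the bricks

The body is a truncated octahedron times a square whose faces are pushed in slightly; the
translates form a perturbation of the tiling with centres `(l, t(l) + z)`, `l` in the body centred
cubic lattice, `z ∈ ℤ^2`, where `t(l)` runs through `(0,0), (1/2,0), (1/2,1/2), (0,1/2)` with the
index of `l` modulo `4`.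
-/

set_option autoImplicit false

open MeasureTheory Filter Topology Set
open scoped ENNReal

namespace Pool.Agent.K3h26.R5

open H947TP

/-! ## The gauges and the body -/

/-- the `ℓ^1` norm of the first three coordinates -/
noncomputable def n1 (v : Fin 5 → ℝ) : ℝ := |v 0| + |v 1| + |v 2|

/-- the maximum norm of the first three coordinates -/
noncomputable def ni (v : Fin 5 → ℝ) : ℝ := max |v 0| (max |v 1| |v 2|)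

/-- the maximum norm of the last two coordinates -/
noncomputable def my (v : Fin 5 → ℝ) : ℝ := max |v 3| |v 4|

/-- half the `ℓ^1` norm of the last two coordinates: the reward at the square faces -/
noncomputable def sy (v : Fin 5 → ℝ) : ℝ := (|v 3| + |v 4|) / 2

/-- the reward at the hexagonal faces -/
noncomputable def rh (lam : ℝ) (v : Fin 5 → ℝ) : ℝ := (1 - lam) / 2 + lam * my v

/-- the convex body -/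
def body (lam ε : ℝ) : Set (Fin 5 → ℝ) :=
  {x | n1 (fun i => 2 * x i) / 3 + ε * rh lam (fun i => 2 * x i) ≤ 1 ∧
    ni (fun i => 2 * x i) / 2 + ε * sy (fun i => 2 * x i) ≤ 1 ∧ my (fun i => 2 * x i) ≤ 1}

/-- `v` separates: translates of the body by `x` and `x + v` do not overlap -/
def Sep (lam ε : ℝ) (v : Fin 5 → ℝ) : Prop :=
  1 ≤ n1 v / 3 + ε * rh lam v ∨ 1 ≤ ni v / 2 + ε * sy v ∨ 1 ≤ my v

/-- brick BODY -/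
def S_BODY : Prop := ∀ lam ε : ℝ, 0 ≤ lam → lam ≤ 1 → 0 < ε → ε ≤ 1 →
  Convex ℝ (body lam ε) ∧ IsCompact (body lam ε) ∧ (interior (body lam ε)).Nonempty ∧
  (∀ x ∈ body lam ε, -x ∈ body lam ε) ∧ volume (body lam ε) ≠ 0 ∧ volume (body lam ε) ≠ ⊤ ∧
  ∀ X : Set (Fin 5 → ℝ), IsPacking (body lam ε) X ↔
    ∀ x ∈ X, ∀ y ∈ X, x ≠ y → Sep lam ε (x - y)

/-! ## The non-lattice packing -/

/-- brick V3 -/
def S_V3 : Prop := ∀ (d : ℕ) (K : Set (Fin d → ℝ)) (s : Fin d → ℝ) (C : ℝ)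
  (τ : (Fin d → ℤ) → (Fin d → ℝ)), 1 ≤ d → IsCompact K → Convex ℝ K → (∀ i, 0 < s i) →
  (∀ Z i, |τ Z i - s i * Z i| ≤ C) → Function.Injective τ → IsPacking K (range τ) →
  volume K / ENNReal.ofReal (∏ i, s i) ≤ density K (range τ)

/-- the index modulo `4` -/
def idx (Z : Fin 5 → ℤ) : ℤ := (2 * Z 0 + 2 * Z 1 + 2 * (Z 2 % 2) + Z 2) % 4

/-- the centres -/
noncomputable def tau5 (s : ℝ) (Z : Fin 5 → ℤ) : Fin 5 → ℝ :=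
  ![s * ((2 * Z 0 + Z 2 % 2 : ℤ) : ℝ), s * ((2 * Z 1 + Z 2 % 2 : ℤ) : ℝ), s * (Z 2 : ℝ),
    (Z 3 : ℝ) + (if idx Z = 1 ∨ idx Z = 2 then 1 / 2 else 0),
    (Z 4 : ℝ) + (if idx Z = 2 ∨ idx Z = 3 then 1 / 2 else 0)]

/-- brick TAU -/
def S_TAU : Prop := ∀ lam ε : ℝ, 0 ≤ lam → lam ≤ 1 → 0 < ε → ε ≤ 1 / 4 →
  ∀ Z Z' : Fin 5 → ℤ, Z ≠ Z' → Sep lam ε (tau5 (1 - ε / 2) Z - tau5 (1 - ε / 2) Z')

/-! ## The tile, its volume and its overlaps -/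

/-- the open tile (truncated octahedron times square), scaled by `t` -/
def Pt (t : ℝ) : Set (Fin 5 → ℝ) := {x | n1 x < 3 / 2 * t ∧ ni x < t ∧ my x < t / 2}

/-- brick VOLP -/
def S_VOLP : Prop := ∀ t : ℝ, 0 < t → ENNReal.ofReal (4 * t ^ 5) ≤ volume (Pt t)

/-- brick OVH: the overlap at a hexagonal face -/
def S_OVH : Prop := ∀ (v : Fin 5 → ℝ) (τ : ℝ), n1 v < 3 → ni v < 2 → my v < 1 →
  τ = 1 - n1 v / 3 → τ ≤ 1 / 10 →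
  volume (Pt 1 ∩ tr v (Pt 1)) ≤
    ENNReal.ofReal ((1 - |v 3|) * (1 - |v 4|) * (9 / 4 * τ * (1 + 10 * τ)))

/-- brick OVS: the overlap at a square face -/
def S_OVS : Prop := ∀ (v : Fin 5 → ℝ) (τ : ℝ), n1 v < 3 → ni v < 2 → my v < 1 →
  τ = 1 - ni v / 2 → τ ≤ 1 / 10 →
  volume (Pt 1 ∩ tr v (Pt 1)) ≤
    ENNReal.ofReal ((1 - |v 3|) * (1 - |v 4|) * (τ * (1 + 10 * τ)))

/-- the overlap with the translate by `v` -/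
noncomputable def ov (v : Fin 5 → ℝ) : ℝ := (volume (Pt 1 ∩ tr v (Pt 1))).toReal

/-- a functional that distinguishes the neighbours from their negatives -/
def psi (v : Fin 5 → ℝ) : ℝ := 4 * v 0 + 2 * v 1 + v 2

/-- the vectors of `Λ` whose translates of the tile overlap the tile, one of each pair -/
def PP (Λ : AddSubgroup (Fin 5 → ℝ)) : Set (Fin 5 → ℝ) :=
  {v | v ∈ Λ ∧ v ≠ 0 ∧ n1 v < 3 ∧ ni v < 2 ∧ my v < 1 ∧ 0 ≤ psi v}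

/-- brick L1: the set `F` -/
def S_L1 : Prop := ∀ (lam ε : ℝ) (Λ : AddSubgroup (Fin 5 → ℝ)), 0 ≤ lam → lam ≤ 1 → 0 < ε →
  ε ≤ 1 / 10 → (∀ v ∈ Λ, v ≠ 0 → Sep lam ε v) →
  (PP Λ).Finite ∧ ∃ F : Set (Fin 5 → ℝ), MeasurableSet F ∧ F ⊆ Pt 1 ∧ Pt (1 - 2 * ε) ⊆ F ∧
    (∀ v ∈ Λ, v ≠ 0 → Disjoint F (tr v F)) ∧
    ENNReal.ofReal (4 - ∑ᶠ v ∈ PP Λ, ov v) ≤ volume F

/-! ## Lattice tilings by the tile -/

/-- `L` is a lattice tiling by the tile (separation and covering) -/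
def IsT (L : AddSubgroup (Fin 5 → ℝ)) : Prop :=
  (∀ v ∈ L, v ≠ 0 → 3 ≤ n1 v ∨ 2 ≤ ni v ∨ 1 ≤ my v) ∧
  ∀ x : Fin 5 → ℝ, ∃ v ∈ L, n1 (x - v) ≤ 3 / 2 ∧ ni (x - v) ≤ 1 ∧ my (x - v) ≤ 1 / 2

/-- brick TO: a tiling of `ℝ^3` by translates of the truncated octahedron is a translate of the
lattice tiling -/
def S_TO : Prop := ∀ U : Set (Fin 3 → ℝ), (0 : Fin 3 → ℝ) ∈ U →
  (∀ u ∈ U, ∀ u' ∈ U, u ≠ u' → 3 ≤ |u 0 - u' 0| + |u 1 - u' 1| + |u 2 - u' 2| ∨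
    2 ≤ |u 0 - u' 0| ∨ 2 ≤ |u 1 - u' 1| ∨ 2 ≤ |u 2 - u' 2|) →
  (∀ x : Fin 3 → ℝ, ∃ u ∈ U, |x 0 - u 0| + |x 1 - u 1| + |x 2 - u 2| ≤ 3 / 2 ∧
    |x 0 - u 0| ≤ 1 ∧ |x 1 - u 1| ≤ 1 ∧ |x 2 - u 2| ≤ 1) →
  ∀ u : Fin 3 → ℝ, u ∈ U ↔ ∃ i j k : ℤ, u 0 = 2 * i + k ∧ u 1 = 2 * j + k ∧ u 2 = k

/-- brick SL: the layers of a lattice tiling -/
def S_SL : Prop := ∀ L : AddSubgroup (Fin 5 → ℝ), IsT L →
  (∀ v ∈ L, my v < 1 → ∃ i j k : ℤ, v 0 = 2 * i + k ∧ v 1 = 2 * j + k ∧ v 2 = k) ∧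
  (∀ (i j k : ℤ) (a b : ℝ), -(1 / 2) ≤ a → a < 1 / 2 → -(1 / 2) ≤ b → b < 1 / 2 →
    ∃ v ∈ L, v 0 = 2 * i + k ∧ v 1 = 2 * j + k ∧ v 2 = k ∧ -(1 / 2) ≤ a - v 3 ∧
      a - v 3 < 1 / 2 ∧ -(1 / 2) ≤ b - v 4 ∧ b - v 4 < 1 / 2)

/-- the vectors of `L` over `(a, b, c)` whose last coordinates are less than `1` -/
def WW (L : AddSubgroup (Fin 5 → ℝ)) (a b c : ℝ) : Set (Fin 5 → ℝ) :=
  {v | v ∈ L ∧ my v < 1 ∧ v 0 = a ∧ v 1 = b ∧ v 2 = c}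

/-- the weight -/
noncomputable def mu (v : Fin 5 → ℝ) : ℝ := (1 - |v 3|) * (1 - |v 4|)

/-- the mean of `f` over the contacts over `(a, b, c)` -/
noncomputable def EE (L : AddSubgroup (Fin 5 → ℝ)) (a b c : ℝ) (f : (Fin 5 → ℝ) → ℝ) : ℝ :=
  ∑ᶠ v ∈ WW L a b c, mu v * f v

/-- the sum over the seven pairs of faces of the mean rewards, with the areas as weights -/
noncomputable def SS (lam : ℝ) (L : AddSubgroup (Fin 5 → ℝ)) : ℝ :=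
  9 / 4 * (EE L 1 1 1 (rh lam) + EE L 1 1 (-1) (rh lam) + EE L 1 (-1) 1 (rh lam) +
    EE L 1 (-1) (-1) (rh lam)) + (EE L 2 0 0 sy + EE L 0 2 0 sy + EE L 0 0 2 sy)

/-- brick MASS: the weights have sum `1` -/
def S_MASS : Prop := ∀ L : AddSubgroup (Fin 5 → ℝ), IsT L → ∀ i j k : ℤ,
  (WW L (2 * i + k) (2 * j + k) k).Finite ∧
  ∑ᶠ v ∈ WW L (2 * i + k) (2 * j + k) k, mu v = 1

/-- brick FP: four points -/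
def S_FP : Prop := ∀ (W : Set (Fin 5 → ℝ)) (δ : ℝ), W.Finite → (∀ v ∈ W, my v < 1) →
  (∀ v ∈ W, ∀ v' ∈ W, v ≠ v' → 1 ≤ |v 3 - v' 3| ∨ 1 ≤ |v 4 - v' 4|) →
  ∑ᶠ v ∈ W, mu v = 1 →
  ∑ᶠ v ∈ W, mu v * sy v ≤ 1 / 2 ∧
  (δ < 1 / 8 → (1 - δ) / 2 ≤ ∑ᶠ v ∈ W, mu v * sy v → ∀ p q : ℝ, (p = 1 ∨ p = -1) →
    (q = 1 ∨ q = -1) → ∃ v ∈ W, (v 3 - p / 2) ^ 2 + (v 4 - q / 2) ^ 2 ≤ 16 * δ)

/-- brick HX: if the contacts at the square faces are close to `(±1/2, ±1/2)`, the mean of `my`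
over the hexagonal faces is small -/
def S_HX : Prop := ∀ L : AddSubgroup (Fin 5 → ℝ), IsT L →
  (∀ a b c : ℝ, ((a = 2 ∧ b = 0 ∧ c = 0) ∨ (a = 0 ∧ b = 2 ∧ c = 0) ∨ (a = 0 ∧ b = 0 ∧ c = 2)) →
    ∀ p q : ℝ, (p = 1 ∨ p = -1) → (q = 1 ∨ q = -1) →
    ∃ v ∈ WW L a b c, |v 3 - p / 2| ≤ 1 / 1000 ∧ |v 4 - q / 2| ≤ 1 / 1000) →
  ∀ a b c : ℝ, |a| = 1 → |b| = 1 → |c| = 1 → EE L a b c my ≤ 49 / 100

/-- the bound for the lattice tilings -/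
def S_INEQ : Prop := ∃ lam G : ℝ, 0 ≤ lam ∧ lam ≤ 1 ∧ 0 ≤ G ∧ G < 6 ∧
  ∀ L : AddSubgroup (Fin 5 → ℝ), IsT L → SS lam L ≤ G

/-! ## The limit argument -/

/-- brick L2 -/
def S_L2 : Prop := ∀ (lam : ℝ) (ε : ℕ → ℝ) (Λ : ℕ → AddSubgroup (Fin 5 → ℝ)) (U : Ultrafilter ℕ),
  0 ≤ lam → lam ≤ 1 → Tendsto ε U (𝓝 0) → (∀ m, ∀ v ∈ Λ m, v ≠ 0 → Sep lam (ε m) v) →
  ∀ v ∈ Lim U Λ, v ≠ 0 → 3 ≤ n1 v ∨ 2 ≤ ni v ∨ 1 ≤ my v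

/-- brick L4 -/
def S_L4 : Prop := ∀ (lam G : ℝ) (ε : ℕ → ℝ) (Λ : ℕ → AddSubgroup (Fin 5 → ℝ))
  (U : Ultrafilter ℕ), 0 ≤ lam → lam ≤ 1 → 0 ≤ G → (∀ m, 0 < ε m) → Tendsto ε U (𝓝 0) →
  (∀ m, ∀ v ∈ Λ m, v ≠ 0 → Sep lam (ε m) v) →
  (∀ m, ∀ F : Set (Fin 5 → ℝ), MeasurableSet F → Bornology.IsBounded F →
    (∀ v ∈ Λ m, v ≠ 0 → Disjoint F (tr v F)) → volume F < ENNReal.ofReal (4 - G * ε m)) →
  ∀ x : Fin 5 → ℝ, ∃ v ∈ Lim U Λ, n1 (x - v) ≤ 3 / 2 ∧ ni (x - v) ≤ 1 ∧ my (x - v) ≤ 1 / 2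

/-- brick L6 -/
def S_L6 : Prop := ∀ (lam η : ℝ) (ε : ℕ → ℝ) (Λ : ℕ → AddSubgroup (Fin 5 → ℝ))
  (U : Ultrafilter ℕ), 0 ≤ lam → lam ≤ 1 → 0 < η → (∀ m, 0 < ε m) → Tendsto ε U (𝓝 0) →
  (∀ m, ∀ v ∈ Λ m, v ≠ 0 → Sep lam (ε m) v) → IsT (Lim U Λ) →
  ∀ᶠ m in U, ∑ᶠ v ∈ PP (Λ m), ov v ≤ ε m * (SS lam (Lim U Λ) + η)

end Pool.Agent.K3h26.R5
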